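import Pool.Agent.L0h7.TW.Stm
import Pool.Agent.L0h92.RG.TRE

/-! # Project TW, module TTR: tree resolutions of finitely presented modules over twisted group rings of
free groups -/

set_option autoImplicit false

noncomputable section

namespace Pool.Agent.L0h92.TW

open Pool.Agent.L0h7.RG Pool.Agent.L0h7.TW
open Pool.Agent.L0h92.RG (tenHom tenHom_apply evI evI_ten ind_mem ind_sum mk_cons)

/-- the twisted group ring of the free group -/
abbrev TFr (A : Type) [Ring A] (n : ℕ) [MulSemiringAction (FreeGroup (Fin n)) A] : Type :=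
  SkewMonoidAlgebra A (FreeGroup (Fin n))

/-- the group elements -/
abbrev gl (A : Type) [Ring A] {n : ℕ} [MulSemiringAction (FreeGroup (Fin n)) A]
    (w : FreeGroup (Fin n)) : TFr A n := SkewMonoidAlgebra.single w 1

section
variable {A : Type} [Ring A] {n : ℕ} [MulSemiringAction (FreeGroup (Fin n)) A]

theorem gl_ten {N : Type} [AddCommGroup N] [Module A N] (w v : FreeGroup (Fin n)) (x : N) :
    gl A w • (ten v x : Ind (FreeGroup (Fin n)) N) = ten (w * v) x := by
  rw [tsingle_smul_ten, smul_one, one_smul]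

theorem co_ten {N : Type} [AddCommGroup N] [Module A N] (a : A) (v : FreeGroup (Fin n)) (x : N) :
    (SkewMonoidAlgebra.single 1 a : TFr A n) • (ten v x : Ind (FreeGroup (Fin n)) N) =
      ten v ((v⁻¹ • a) • x) := by
  rw [tsingle_smul_ten, one_mul]

theorem gl_mul (w v : FreeGroup (Fin n)) : gl A (w * v) = gl A w * gl A v := by
  change _ = SkewMonoidAlgebra.single w (1 : A) * SkewMonoidAlgebra.single v (1 : A)
  rw [SkewMonoidAlgebra.single_mul_single, smul_one, one_mul]

theorem gl_co (w : FreeGroup (Fin n)) (a : A) :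
    gl A w * SkewMonoidAlgebra.single 1 a = SkewMonoidAlgebra.single 1 (w • a) * gl A w := by
  change SkewMonoidAlgebra.single w (1 : A) * SkewMonoidAlgebra.single 1 a =
    SkewMonoidAlgebra.single 1 (w • a) * SkewMonoidAlgebra.single w (1 : A)
  rw [SkewMonoidAlgebra.single_mul_single, SkewMonoidAlgebra.single_mul_single, one_mul, mul_one,
    one_mul, one_smul, mul_one]

variable {M : Type} [AddCommGroup M] [Module A M] [Module (TFr A n) M]

/-- the structure of an `A`-module comes from the one of a module over the twisted group ring -/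
def Cmp (A : Type) [Ring A] (n : ℕ) [MulSemiringAction (FreeGroup (Fin n)) A] (M : Type)
    [AddCommGroup M] [Module A M] [Module (TFr A n) M] : Prop :=
  ∀ (a : A) (x : M), a • x = (SkewMonoidAlgebra.single 1 a : TFr A n) • x

/-- the action of the group elements -/
def sl (A : Type) [Ring A] {n : ℕ} [MulSemiringAction (FreeGroup (Fin n)) A] {M : Type}
    [AddCommGroup M] [Module (TFr A n) M] (w : FreeGroup (Fin n)) : M →+ M where
  toFun x := gl A w • x
  map_zero' := smul_zero _
  map_add' := smul_add _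

omit [Module A M] in
theorem sl_apply (w : FreeGroup (Fin n)) (x : M) : sl A w x = gl A w • x := rfl

omit [Module A M] in
theorem sl_mul (w v : FreeGroup (Fin n)) (x : M) : sl A (w * v) x = sl A w (sl A v x) := by
  rw [sl_apply, sl_apply, sl_apply, smul_smul, gl_mul]

omit [Module A M] in
theorem sl_one (x : M) : sl A (1 : FreeGroup (Fin n)) x = x := by
  rw [sl_apply]
  exact one_smul _ x

omit [Module A M] in
theorem sl_inv (w : FreeGroup (Fin n)) (x : M) : sl A w (sl A w⁻¹ x) = x := by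
  rw [← sl_mul, mul_inv_cancel, sl_one]

omit [Module A M] in
theorem sl_inv' (w : FreeGroup (Fin n)) (x : M) : sl A w⁻¹ (sl A w x) = x := by
  rw [← sl_mul, inv_mul_cancel, sl_one]

theorem sl_smul (hA : Cmp A n M) (w : FreeGroup (Fin n)) (a : A) (x : M) : sl A w (a • x) = (w • a) • sl A w x := by
  rw [sl_apply, sl_apply, hA, hA, smul_smul, smul_smul, gl_co]

variable (hA : Cmp A n M)

/-- the translate of a submodule -/
def mv (w : FreeGroup (Fin n)) (N : Submodule A M) : Submodule A M where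
  carrier := {y | sl A w⁻¹ y ∈ N}
  zero_mem' := by
    change sl A w⁻¹ (0 : M) ∈ N
    rw [map_zero]
    exact N.zero_mem
  add_mem' := by
    intro a b ha hb
    change sl A w⁻¹ (a + b) ∈ N
    rw [map_add]
    exact N.add_mem ha hb
  smul_mem' := by
    intro c a ha
    change sl A w⁻¹ (c • a) ∈ N
    rw [sl_smul hA]
    exact N.smul_mem _ ha

theorem mem_mv (w : FreeGroup (Fin n)) (N : Submodule A M) (y : M) :
    y ∈ mv hA w N ↔ sl A w⁻¹ y ∈ N := Iff.rfl

theorem mv_mem (w : FreeGroup (Fin n)) (N : Submodule A M) {y : M} (h : y ∈ N) :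
    sl A w y ∈ mv hA w N := by
  rw [mem_mv, sl_inv']
  exact h

theorem mv_fg (w : FreeGroup (Fin n)) (N : Submodule A M) (h : N.FG) : (mv hA w N).FG := by
  classical
  obtain ⟨S, hS⟩ := h
  refine ⟨S.image (sl A w), le_antisymm ?_ ?_⟩
  · rw [Submodule.span_le]
    intro y hy
    rw [Finset.coe_image] at hy
    obtain ⟨x, hx, rfl⟩ := hy
    exact mv_mem hA w N (hS ▸ Submodule.subset_span hx)
  · intro y hy
    rw [mem_mv, ← hS] at hy
    have key : ∀ x ∈ Submodule.span A (S : Set M), sl A w x ∈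
        Submodule.span A ((S.image (sl A w) : Finset M) : Set M) := by
      intro x hx
      induction hx using Submodule.span_induction with
      | mem x hx =>
        refine Submodule.subset_span ?_
        rw [Finset.coe_image]
        exact ⟨x, hx, rfl⟩
      | zero =>
        rw [map_zero]
        exact Submodule.zero_mem _
      | add x y _ _ hx hy =>
        rw [map_add]
        exact Submodule.add_mem _ hx hy
      | smul a x _ hx =>
        rw [sl_smul hA]
        exact Submodule.smul_mem _ _ hx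
    have h1 := key _ hy
    rwa [sl_inv] at h1

/-- the elements of `N` which come from `N` -/
def Nsub (N : Submodule A M) (s : Fin n) : Submodule A M := N ⊓ mv hA (FreeGroup.of s) N

/-- the inclusion -/
def incN (N : Submodule A M) (s : Fin n) : ↥(Nsub hA N s) →+ ↥N :=
  (Submodule.inclusion (inf_le_left : Nsub hA N s ≤ N)).toAddMonoidHom

/-- the action of the inverse of the generator -/
def actN (N : Submodule A M) (s : Fin n) : ↥(Nsub hA N s) →+ ↥N where
  toFun y := ⟨sl A (FreeGroup.of s)⁻¹ y, y.2.2⟩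
  map_zero' := Subtype.ext (map_zero _)
  map_add' _ _ := Subtype.ext (map_add _ _ _)

theorem incN_coe (N : Submodule A M) (s : Fin n) (x : ↥(Nsub hA N s)) :
    ((incN hA N s x : ↥N) : M) = x := rfl

theorem actN_coe (N : Submodule A M) (s : Fin n) (x : ↥(Nsub hA N s)) :
    ((actN hA N s x : ↥N) : M) = sl A (FreeGroup.of s)⁻¹ (x : M) := rfl

/-- the boundary map -/
def bd1 (N : Submodule A M) : (∀ s, ↥(Nsub hA N s)) →+ Ind (FreeGroup (Fin n)) ↥N where
  toFun x := ∑ s, (tenHom (FreeGroup.of s) (actN hA N s (x s)) -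
    tenHom (1 : FreeGroup (Fin n)) (incN hA N s (x s)))
  map_zero' := by
    refine Finset.sum_eq_zero fun s _ => ?_
    rw [Pi.zero_apply, map_zero, map_zero, map_zero, map_zero, sub_zero]
  map_add' x y := by
    rw [← Finset.sum_add_distrib]
    refine Finset.sum_congr rfl fun s _ => ?_
    rw [Pi.add_apply, map_add, map_add, map_add, map_add]
    abel

theorem bd1_apply (N : Submodule A M) (x : ∀ s, ↥(Nsub hA N s)) :
    bd1 hA N x = ∑ s, (ten (FreeGroup.of s) (actN hA N s (x s)) -
      ten (1 : FreeGroup (Fin n)) (incN hA N s (x s))) := rfl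

theorem bd1_smul (N : Submodule A M) (a : A) (x : ∀ s, ↥(Nsub hA N s)) :
    bd1 hA N (a • x) = (SkewMonoidAlgebra.single 1 a : TFr A n) • bd1 hA N x := by
  rw [bd1_apply, bd1_apply, Finset.smul_sum]
  refine Finset.sum_congr rfl fun s _ => ?_
  rw [smul_sub, co_ten, co_ten, inv_one, one_smul]
  congr 2
  apply Subtype.ext
  change sl A (FreeGroup.of s)⁻¹ (a • ((x s : ↥(Nsub hA N s)) : M)) =
    ((FreeGroup.of s)⁻¹ • a) • sl A (FreeGroup.of s)⁻¹ ((x s : ↥(Nsub hA N s)) : M)
  exact sl_smul hA _ _ _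

variable {N : Submodule A M}
  (f : Ind (FreeGroup (Fin n)) (∀ s, ↥(Nsub hA N s)) →ₗ[TFr A n] Ind (FreeGroup (Fin n)) ↥N)
  (hf : ∀ (w : FreeGroup (Fin n)) (x : ∀ s, ↥(Nsub hA N s)),
    f (ten w x) = gl A w • bd1 hA N x)

include hf

theorem f_ten (w : FreeGroup (Fin n)) (x : ∀ s, ↥(Nsub hA N s)) :
    f (ten w x) = ∑ s, (ten (w * FreeGroup.of s) (actN hA N s (x s)) -
      ten w (incN hA N s (x s))) := by
  rw [hf, bd1_apply, Finset.smul_sum]
  refine Finset.sum_congr rfl fun s _ => ?_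
  rw [smul_sub, gl_ten, gl_ten, mul_one]

/-- the value of the boundary -/
theorem f_coord (z : Ind (FreeGroup (Fin n)) (∀ s, ↥(Nsub hA N s))) (v : FreeGroup (Fin n)) :
    (((show FreeGroup (Fin n) →₀ ↥N from f z) v : ↥N) : M) =
      ∑ s, sl A (FreeGroup.of s)⁻¹ ((((show FreeGroup (Fin n) →₀ (∀ s, ↥(Nsub hA N s)) from z)
        (v * (FreeGroup.of s)⁻¹)) s : ↥(Nsub hA N s)) : M) -
      ∑ s, ((((show FreeGroup (Fin n) →₀ (∀ s, ↥(Nsub hA N s)) from z) v) s :
        ↥(Nsub hA N s)) : M) := by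
  classical
  -- additive maps
  let L : Ind (FreeGroup (Fin n)) (∀ s, ↥(Nsub hA N s)) →+ M :=
    (N.subtype.toAddMonoidHom.comp (evI v)).comp f.toAddMonoidHom
  let co : FreeGroup (Fin n) → ∀ s : Fin n,
      Ind (FreeGroup (Fin n)) (∀ s, ↥(Nsub hA N s)) →+ M := fun u s =>
    ((Nsub hA N s).subtype.toAddMonoidHom.comp (Pi.evalAddMonoidHom _ s)).comp (evI u)
  let R : Ind (FreeGroup (Fin n)) (∀ s, ↥(Nsub hA N s)) →+ M :=
    ∑ s, ((sl A (FreeGroup.of s)⁻¹).comp (co (v * (FreeGroup.of s)⁻¹) s) - co v s)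
  have hLR : L = R := by
    refine Finsupp.addHom_ext fun w x => ?_
    have h1 : L (ten w x) = ∑ s, ((if w * FreeGroup.of s = v then
        sl A (FreeGroup.of s)⁻¹ (x s : M) else 0) - (if w = v then (x s : M) else 0)) := by
      change (N.subtype.toAddMonoidHom.comp (evI v)) (f (ten w x)) = _
      rw [f_ten hA f hf, map_sum]
      refine Finset.sum_congr rfl fun s _ => ?_
      rw [map_sub]
      change ((evI v (ten (w * FreeGroup.of s) (actN hA N s (x s))) : ↥N) : M) -
        ((evI v (ten w (incN hA N s (x s))) : ↥N) : M) = _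
      rw [evI_ten, evI_ten]
      congr 1
      · split_ifs
        · rfl
        · rfl
      · split_ifs
        · rfl
        · rfl
    have h3 : R (ten w x) = ∑ s, ((if w = v * (FreeGroup.of s)⁻¹ then
        sl A (FreeGroup.of s)⁻¹ (x s : M) else 0) - (if w = v then (x s : M) else 0)) := by
      change (∑ s, ((sl A (FreeGroup.of s)⁻¹).comp (co (v * (FreeGroup.of s)⁻¹) s) - co v s))
        (ten w x) = _
      rw [AddMonoidHom.finsetSum_apply]
      refine Finset.sum_congr rfl fun s _ => ?_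
      rw [AddMonoidHom.sub_apply]
      have h4 : ∀ u, co u s (ten w x) = if w = u then (x s : M) else 0 := by
        intro u
        change ((((Finsupp.single w x : FreeGroup (Fin n) →₀ (∀ s, ↥(Nsub hA N s))) u) s :
          ↥(Nsub hA N s)) : M) = _
        rw [Finsupp.single_apply]
        split_ifs
        · rfl
        · rfl
      change sl A (FreeGroup.of s)⁻¹ (co (v * (FreeGroup.of s)⁻¹) s (ten w x)) -
        co v s (ten w x) = _
      rw [h4, h4]
      congr 1
      split_ifs
      · rfl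
      · exact map_zero _
    change L (ten w x) = R (ten w x)
    rw [h1, h3]
    refine Finset.sum_congr rfl fun s _ => ?_
    have h5 : (w * FreeGroup.of s = v) ↔ (w = v * (FreeGroup.of s)⁻¹) := by
      rw [eq_mul_inv_iff_mul_eq]
    simp only [h5]
  have h6 := DFunLike.congr_fun hLR z
  have h7 : R z = ∑ s, (sl A (FreeGroup.of s)⁻¹ (co (v * (FreeGroup.of s)⁻¹) s z) -
      co v s z) := by
    change (∑ s, ((sl A (FreeGroup.of s)⁻¹).comp (co (v * (FreeGroup.of s)⁻¹) s) - co v s)) z = _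
    rw [AddMonoidHom.finsetSum_apply]
    rfl
  rw [h7, Finset.sum_sub_distrib] at h6
  exact h6

theorem f_inj (hTRA : S_TRA) : Function.Injective f := by
  rw [injective_iff_map_eq_zero]
  intro z hz
  classical
  let z' : FreeGroup (Fin n) →₀ (∀ s, ↥(Nsub hA N s)) := z
  let X : FreeGroup (Fin n) × Fin n →₀ M :=
    Finsupp.onFinset (z'.support ×ˢ Finset.univ)
      (fun p => sl A (FreeGroup.of p.2)⁻¹ ((z' p.1 p.2 : ↥(Nsub hA N p.2)) : M))
      (fun p hp => by
        rw [Finset.mem_product, Finsupp.mem_support_iff]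
        refine ⟨fun h0 => hp ?_, Finset.mem_univ _⟩
        rw [h0]
        exact map_zero _)
  let σ : FreeGroup (Fin n) →* AddMonoid.End M :=
    { toFun := fun w => sl A w
      map_one' := by
        ext x
        exact sl_one x
      map_mul' := fun w v => by
        ext x
        exact sl_mul w v x }
  have hX : X = 0 := by
    refine hTRA n M σ X fun v => ?_
    have h1 := f_coord hA f hf z v
    rw [hz] at h1
    have h2 := sub_eq_zero.1 (h1.symm.trans rfl)
    refine Eq.trans h2 (Finset.sum_congr rfl fun s _ => ?_)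
    exact (sl_inv (FreeGroup.of s) _).symm
  refine Finsupp.ext (f := z') (g := 0) fun v => ?_
  funext s
  apply Subtype.ext
  have h2 : sl A (FreeGroup.of s)⁻¹ ((z' v s : ↥(Nsub hA N s)) : M) = 0 :=
    DFunLike.congr_fun hX (v, s)
  have h3 := sl_inv (A := A) (FreeGroup.of s) ((z' v s : ↥(Nsub hA N s)) : M)
  rw [h2, map_zero] at h3
  exact h3.symm

/-- the basic relation -/
theorem rel1 (a : Fin n × Bool) (y : ↥N) (y' : ↥N) (hy : (y' : M) = sl A (FreeGroup.mk [a]) (y : M))
    (w : FreeGroup (Fin n)) :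
    ten (w * FreeGroup.mk [a]) y - ten w y' ∈ LinearMap.range f := by
  classical
  have key : ∀ (s : Fin n) (y : ↥N) (y' : ↥N), (y' : M) = sl A (FreeGroup.of s) (y : M) →
      ∀ w, ten (w * FreeGroup.of s) y - ten w y' ∈ LinearMap.range f := by
    intro s y y' hy w
    have hy2 : sl A (FreeGroup.of s)⁻¹ (y' : M) = y := by
      rw [hy, sl_inv']
    have hmem : (y' : M) ∈ Nsub hA N s := ⟨y'.2, by
      change sl A (FreeGroup.of s)⁻¹ (y' : M) ∈ N
      rw [hy2]
      exact y.2⟩
    refine ⟨ten w (Pi.single s ⟨(y' : M), hmem⟩), ?_⟩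
    rw [f_ten hA f hf, Finset.sum_eq_single s]
    · rw [Pi.single_eq_same]
      congr 2
      exact Subtype.ext hy2
    · intro t _ ht
      rw [Pi.single_eq_of_ne ht, map_zero, map_zero]
      change tenHom _ 0 - tenHom _ 0 = 0
      rw [map_zero, map_zero, sub_zero]
    · intro h
      exact absurd (Finset.mem_univ s) h
  obtain ⟨s, b⟩ := a
  cases b with
  | true => exact key s y y' hy w
  | false =>
    have e1 : (FreeGroup.mk [(s, false)] : FreeGroup (Fin n)) = (FreeGroup.of s)⁻¹ := rfl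
    rw [e1] at hy ⊢
    have h1 := key s y' y (by rw [hy, sl_inv]) (w * (FreeGroup.of s)⁻¹)
    rw [inv_mul_cancel_right] at h1
    have h2 := (LinearMap.range f).neg_mem h1
    rwa [neg_sub] at h2

omit hf

/-- balls -/
def bl (N' : Submodule A M) : ℕ → Submodule A M
  | 0 => N'
  | k + 1 => bl N' k ⊔ ⨆ a : Fin n × Bool, mv hA (FreeGroup.mk [a]) (bl N' k)

theorem bl_fg (N' : Submodule A M) (h : N'.FG) : ∀ k, (bl hA N' k).FG
  | 0 => h
  | k + 1 => (bl_fg N' h k).sup (Submodule.fg_iSup _ fun _ => mv_fg hA _ _ (bl_fg N' h k))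

theorem bl_succ (N' : Submodule A M) (k : ℕ) : bl hA N' k ≤ bl hA N' (k + 1) := le_sup_left

theorem bl_mono (N' : Submodule A M) {k l : ℕ} (h : k ≤ l) : bl hA N' k ≤ bl hA N' l := by
  induction h with
  | refl => exact le_rfl
  | step _ ih => exact ih.trans (bl_succ hA N' _)

theorem bl_act (N' : Submodule A M) (k : ℕ) (a : Fin n × Bool) (x : M) (hx : x ∈ bl hA N' k) :
    sl A (FreeGroup.mk [a]) x ∈ bl hA N' (k + 1) :=
  (le_sup_right : _ ≤ bl hA N' (k + 1))
    ((le_iSup (fun a : Fin n × Bool => mv hA (FreeGroup.mk [a]) (bl hA N' k)) a)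
      (mv_mem hA _ _ hx))

theorem bl_word (N' : Submodule A M) (x : M) (hx : x ∈ N') : ∀ L : List (Fin n × Bool),
    sl A (FreeGroup.mk L) x ∈ bl hA N' L.length
  | [] => by
    change sl A 1 x ∈ N'
    rw [sl_one]
    exact hx
  | a :: L => by
    rw [mk_cons, sl_mul]
    exact bl_act hA N' _ a _ (bl_word N' x hx L)

/-- **paths** -/
theorem path (N' : Submodule A M) (r : ℕ)
    (f : Ind (FreeGroup (Fin n)) (∀ s, ↥(Nsub hA (bl hA N' r) s)) →ₗ[TFr A n]
      Ind (FreeGroup (Fin n)) ↥(bl hA N' r))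
    (hf : ∀ (w : FreeGroup (Fin n)) (x : ∀ s, ↥(Nsub hA (bl hA N' r) s)),
      f (ten w x) = gl A w • bd1 hA (bl hA N' r) x)
    (x : M) (hx : x ∈ N') : ∀ (L : List (Fin n × Bool)) (hL : L.length ≤ r)
    (w : FreeGroup (Fin n)),
    ten (w * FreeGroup.mk L) (⟨x, bl_mono hA N' (Nat.zero_le r) hx⟩ : ↥(bl hA N' r)) -
      ten w (⟨sl A (FreeGroup.mk L) x, bl_mono hA N' hL (bl_word hA N' x hx L)⟩ :
        ↥(bl hA N' r)) ∈ LinearMap.range f
  | [], hL, w => by
    have e : (⟨sl A (FreeGroup.mk []) x, bl_mono hA N' hL (bl_word hA N' x hx [])⟩ :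
        ↥(bl hA N' r)) = ⟨x, bl_mono hA N' (Nat.zero_le r) hx⟩ := Subtype.ext (sl_one x)
    rw [e]
    have e2 : w * FreeGroup.mk [] = w := mul_one w
    rw [e2, sub_self]
    exact Submodule.zero_mem _
  | a :: L, hL, w => by
    have hL' : L.length ≤ r := by
      rw [List.length_cons] at hL
      omega
    have ih := path N' r f hf x hx L hL' (w * FreeGroup.mk [a])
    have h1 := rel1 hA f hf a
      ⟨sl A (FreeGroup.mk L) x, bl_mono hA N' hL' (bl_word hA N' x hx L)⟩
      ⟨sl A (FreeGroup.mk (a :: L)) x, bl_mono hA N' hL (bl_word hA N' x hx (a :: L))⟩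
      (by
        change sl A (FreeGroup.mk (a :: L)) x = sl A (FreeGroup.mk [a]) (sl A (FreeGroup.mk L) x)
        rw [mk_cons, sl_mul]) w
    have h2 := (LinearMap.range f).add_mem ih h1
    rw [sub_add_sub_cancel] at h2
    have e : w * FreeGroup.mk (a :: L) = w * FreeGroup.mk [a] * FreeGroup.mk L := by
      rw [mk_cons, mul_assoc]
    rw [e]
    exact h2

/-- the elements whose terms are in a submodule -/
def TT (N : Submodule A M) (K : Submodule (TFr A n) (Ind (FreeGroup (Fin n)) ↥N)) :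
    Submodule A M where
  carrier := {y | ∃ hy : y ∈ N, ∀ w : FreeGroup (Fin n), ten w (⟨y, hy⟩ : ↥N) ∈ K}
  zero_mem' := ⟨N.zero_mem, fun w => by
    change tenHom w (0 : ↥N) ∈ K
    rw [map_zero]
    exact K.zero_mem⟩
  add_mem' := by
    rintro a b ⟨ha, ha2⟩ ⟨hb, hb2⟩
    refine ⟨N.add_mem ha hb, fun w => ?_⟩
    change tenHom w ((⟨a, ha⟩ : ↥N) + ⟨b, hb⟩) ∈ K
    rw [map_add]
    exact K.add_mem (ha2 w) (hb2 w)
  smul_mem' := by
    rintro c a ⟨ha, ha2⟩
    refine ⟨N.smul_mem c ha, fun w => ?_⟩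
    have h1 := K.smul_mem (SkewMonoidAlgebra.single 1 (w • c) : TFr A n) (ha2 w)
    rw [co_ten, inv_smul_smul] at h1
    exact h1

theorem bl_le_TT (N' : Submodule A M) (r : ℕ)
    (f : Ind (FreeGroup (Fin n)) (∀ s, ↥(Nsub hA (bl hA N' r) s)) →ₗ[TFr A n]
      Ind (FreeGroup (Fin n)) ↥(bl hA N' r))
    (hf : ∀ (w : FreeGroup (Fin n)) (x : ∀ s, ↥(Nsub hA (bl hA N' r) s)),
      f (ten w x) = gl A w • bd1 hA (bl hA N' r) x)
    (K : Submodule (TFr A n) (Ind (FreeGroup (Fin n)) ↥(bl hA N' r)))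
    (hK : LinearMap.range f ≤ K) (h0 : N' ≤ TT (bl hA N' r) K) :
    ∀ k, k ≤ r → bl hA N' k ≤ TT (bl hA N' r) K
  | 0, _ => h0
  | k + 1, hk => by
    have ih := bl_le_TT N' r f hf K hK h0 k (by omega)
    refine sup_le ih (iSup_le fun a => ?_)
    intro y hy
    rw [mem_mv] at hy
    obtain ⟨x, hx⟩ : ∃ x, x = sl A (FreeGroup.mk [a])⁻¹ y := ⟨_, rfl⟩
    have hyx : y = sl A (FreeGroup.mk [a]) x := by rw [hx, sl_inv]
    rw [← hx] at hy
    rw [hyx]
    obtain ⟨hy1, hy2⟩ := ih hy
    have hy3 : sl A (FreeGroup.mk [a]) x ∈ bl hA N' r :=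
      bl_mono hA N' hk (bl_act hA N' k a x hy)
    refine ⟨hy3, fun w => ?_⟩
    have h1 := hK (rel1 hA f hf a ⟨x, hy1⟩ ⟨_, hy3⟩ rfl w)
    have h2 := K.sub_mem (hy2 (w * FreeGroup.mk [a])) h1
    rwa [sub_sub_cancel] at h2

end

/-- **TTR**: finitely presented modules over the twisted group ring of a free group. -/
theorem t_TTR (hTRA : S_TRA) (hIND : S_TIN) : S_TTR := by
  intro A _ n _ hNoe M _ _ hFP
  classical
  let iAM : Module A M := Module.compHom M (tio A (FreeGroup (Fin n)))
  have hA : Cmp A n M := fun _ _ => rfl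
  have hfin : Module.Finite (TFr A n) M := inferInstance
  obtain ⟨S₀, hS₀⟩ := hfin.fg_top
  obtain ⟨N', hN'⟩ : ∃ N' : Submodule A M, N' = Submodule.span A (S₀ : Set M) := ⟨_, rfl⟩
  have hN'fg : N'.FG := by
    rw [hN']
    exact ⟨S₀, rfl⟩
  have hSN : ∀ x ∈ S₀, x ∈ N' := fun x hx => by
    rw [hN']
    exact Submodule.subset_span hx
  have hN'fin : Module.Finite A ↥N' := Module.Finite.iff_fg.2 hN'fg
  obtain ⟨g', hg'⟩ := hIND.2.2 A (FreeGroup (Fin n)) ↥N' M N'.subtype.toAddMonoidHom
    (fun _ _ => rfl)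
  have hg's : Function.Surjective g' := by
    rw [← LinearMap.range_eq_top, eq_top_iff, ← hS₀, Submodule.span_le]
    intro x hx
    refine ⟨ten 1 ⟨x, hSN x hx⟩, ?_⟩
    rw [hg']
    exact one_smul _ x
  have hIfin := hIND.2.1 A (FreeGroup (Fin n)) ↥N' hN'fin
  obtain ⟨S, hS⟩ := Module.FinitePresentation.fg_ker g' hg's
  -- the radius
  obtain ⟨r, hr⟩ : ∃ r : ℕ, ∀ u ∈ S, ∀ b ∈ (show FreeGroup (Fin n) →₀ ↥N' from u).support,
      b.toWord.length ≤ r := by
    refine ⟨S.sup fun u => (show FreeGroup (Fin n) →₀ ↥N' from u).support.sup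
      fun b => b.toWord.length, fun u hu b hb => ?_⟩
    exact (Finset.le_sup (f := fun b : FreeGroup (Fin n) => b.toWord.length) hb).trans
      (Finset.le_sup (f := fun u : Ind (FreeGroup (Fin n)) ↥N' =>
        (show FreeGroup (Fin n) →₀ ↥N' from u).support.sup fun b => b.toWord.length) hu)
  have hle : N' ≤ bl hA N' r := bl_mono hA N' (Nat.zero_le r)
  have hNfg : (bl hA N' r).FG := bl_fg hA N' hN'fg r
  have hNfin : Module.Finite A ↥(bl hA N' r) := Module.Finite.iff_fg.2 hNfg
  obtain ⟨f, hf⟩ := hIND.2.2 A (FreeGroup (Fin n)) (∀ s, ↥(Nsub hA (bl hA N' r) s))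
    (Ind (FreeGroup (Fin n)) ↥(bl hA N' r)) (bd1 hA (bl hA N' r)) (bd1_smul hA (bl hA N' r))
  obtain ⟨g, hg⟩ := hIND.2.2 A (FreeGroup (Fin n)) ↥(bl hA N' r) M
    (bl hA N' r).subtype.toAddMonoidHom (fun _ _ => rfl)
  obtain ⟨ι, hι⟩ := hIND.2.2 A (FreeGroup (Fin n)) ↥N' (Ind (FreeGroup (Fin n)) ↥(bl hA N' r))
    ((tenHom (1 : FreeGroup (Fin n))).comp (Submodule.inclusion hle).toAddMonoidHom) (by
      intro a x
      change ten (1 : FreeGroup (Fin n)) (a • Submodule.inclusion hle x) =
        (SkewMonoidAlgebra.single 1 a : TFr A n) •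
          ten (1 : FreeGroup (Fin n)) (Submodule.inclusion hle x)
      rw [co_ten, inv_one, one_smul])
  have hι' : ∀ (w : FreeGroup (Fin n)) (x : ↥N'), ι (ten w x) =
      ten w (⟨(x : M), hle x.2⟩ : ↥(bl hA N' r)) := by
    intro w x
    rw [hι]
    change gl A w • ten (1 : FreeGroup (Fin n)) (Submodule.inclusion hle x) = _
    rw [gl_ten, mul_one]
    rfl
  have hgι : ∀ u, g (ι u) = g' u := by
    intro u
    have h1 : (g.toAddMonoidHom.comp ι.toAddMonoidHom) = g'.toAddMonoidHom := by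
      refine Finsupp.addHom_ext fun w x => ?_
      change g (ι (ten w x)) = g' (ten w x)
      rw [hι', hg, hg']
      rfl
    exact DFunLike.congr_fun h1 u
  have hgf : ∀ z, g (f z) = 0 := by
    intro z
    have h1 : (g.toAddMonoidHom.comp f.toAddMonoidHom) = 0 := by
      refine Finsupp.addHom_ext fun w x => ?_
      change g (f (ten w x)) = 0
      rw [f_ten hA f hf, map_sum]
      refine Finset.sum_eq_zero fun s _ => ?_
      rw [map_sub, hg, hg]
      change sl A (w * FreeGroup.of s) (sl A (FreeGroup.of s)⁻¹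
        ((x s : ↥(Nsub hA (bl hA N' r) s)) : M)) - sl A w ((x s : ↥(Nsub hA (bl hA N' r) s)) : M) = 0
      rw [sl_mul, sl_inv, sub_self]
    exact DFunLike.congr_fun h1 z
  -- the generators of the kernel
  have key : ∀ u ∈ S, ι u ∈ LinearMap.range f := by
    intro u hu
    have hgu : g' u = 0 := by
      have h1 : u ∈ LinearMap.ker g' := by
        rw [← hS]
        exact Submodule.subset_span hu
      exact h1
    obtain ⟨u', hu'⟩ : ∃ u' : FreeGroup (Fin n) →₀ ↥N', u' = u := ⟨u, rfl⟩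
    have hlen : ∀ b ∈ u'.support, b.toWord.length ≤ r := by
      rw [hu']
      exact hr u hu
    have hsum : u = ∑ b ∈ u'.support, ten b (u' b) := by
      rw [hu']
      exact ind_sum u
    have hmem : ∀ b ∈ u'.support, sl A b (u' b : M) ∈ bl hA N' r := by
      intro b hb
      have h1 := bl_word hA N' (u' b) (u' b).2 b.toWord
      rw [FreeGroup.mk_toWord] at h1
      exact bl_mono hA N' (hlen b hb) h1
    obtain ⟨q, hq⟩ : ∃ q : FreeGroup (Fin n) → ↥(bl hA N' r), ∀ b (hb : b ∈ u'.support),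
        q b = ⟨sl A b (u' b : M), hmem b hb⟩ :=
      ⟨fun b => if hb : b ∈ u'.support then ⟨sl A b (u' b : M), hmem b hb⟩ else 0,
        fun b hb => dif_pos hb⟩
    have h1 : ∑ b ∈ u'.support, q b = 0 := by
      apply Subtype.ext
      rw [Submodule.coe_sum]
      have h2 : ∑ b ∈ u'.support, ((q b : ↥(bl hA N' r)) : M) = g' u := by
        rw [hsum, map_sum]
        refine Finset.sum_congr rfl fun b hb => ?_
        rw [hg', hq b hb]
        rfl
      rw [h2, hgu]
      rfl
    have h2 : ι u = ∑ b ∈ u'.support, (ι (ten b (u' b)) - ten 1 (q b)) := by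
      rw [Finset.sum_sub_distrib]
      have h3 : ∑ b ∈ u'.support, ten (1 : FreeGroup (Fin n)) (q b) = 0 := by
        change ∑ b ∈ u'.support, tenHom (1 : FreeGroup (Fin n)) (q b) = 0
        rw [← map_sum, h1, map_zero]
      rw [h3, sub_zero, ← map_sum, ← hsum]
    rw [h2]
    refine Submodule.sum_mem _ fun b hb => ?_
    have h3 := path hA N' r f hf (u' b) (u' b).2 b.toWord (hlen b hb) 1
    rw [hι', hq b hb]
    have e1 : (⟨sl A (FreeGroup.mk b.toWord) (u' b : M), bl_mono hA N' (hlen b hb)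
        (bl_word hA N' (u' b) (u' b).2 b.toWord)⟩ : ↥(bl hA N' r)) =
        ⟨sl A b (u' b : M), hmem b hb⟩ := by
      apply Subtype.ext
      change sl A (FreeGroup.mk b.toWord) (u' b : M) = sl A b (u' b : M)
      rw [FreeGroup.mk_toWord]
    rw [e1, FreeGroup.mk_toWord, one_mul] at h3
    exact h3
  have htop : ∀ z, z ∈ LinearMap.range ι ⊔ LinearMap.range f := by
    intro z
    have h0 : N' ≤ TT (bl hA N' r) (LinearMap.range ι ⊔ LinearMap.range f) := by
      intro x hx
      refine ⟨hle hx, fun w => ?_⟩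
      exact Submodule.mem_sup_left ⟨ten w ⟨x, hx⟩, hι' w ⟨x, hx⟩⟩
    have h1 := bl_le_TT hA N' r f hf _ le_sup_right h0 r le_rfl
    refine ind_mem (LinearMap.range ι ⊔ LinearMap.range f).toAddSubgroup (fun w x => ?_) z
    obtain ⟨_, h2⟩ := h1 x.2
    exact h2 w
  have hN1fin : ∀ s, Module.Finite A ↥(Nsub hA (bl hA N' r) s) := by
    intro s
    have i1 : IsNoetherian A ↥(bl hA N' r) := isNoetherian_of_isNoetherianRing_of_finite A _
    have i2 : IsNoetherian A ↥(Nsub hA (bl hA N' r) s) := isNoetherian_of_le inf_le_left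
    infer_instance
  refine ⟨↥(bl hA N' r), ∀ s, ↥(Nsub hA (bl hA N' r) s), inferInstance, inferInstance,
    inferInstance, inferInstance, inferInstance, inferInstance, f, g, f_inj hA f hf hTRA, ?_, ?_⟩
  · intro x
    obtain ⟨u, hu⟩ := hg's x
    exact ⟨ι u, by rw [hgι, hu]⟩
  · apply le_antisymm
    · rintro _ ⟨z, rfl⟩
      exact hgf z
    · intro z hz
      obtain ⟨_, ⟨u, rfl⟩, _, ⟨t, rfl⟩, hut⟩ := Submodule.mem_sup.1 (htop z)
      have h1 : g z = 0 := hz
      rw [← hut, map_add, hgι, hgf, add_zero] at h1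
      have h2 : u ∈ Submodule.span (TFr A n) (S : Set (Ind (FreeGroup (Fin n)) ↥N')) := by
        rw [hS]
        exact h1
      have h3 : ι u ∈ LinearMap.range f := by
        have h4 : Submodule.span (TFr A n) (S : Set (Ind (FreeGroup (Fin n)) ↥N')) ≤
            (LinearMap.range f).comap ι := by
          rw [Submodule.span_le]
          intro v hv
          exact key v hv
        exact h4 h2
      rw [← hut]
      exact Submodule.add_mem _ h3 ⟨t, rfl⟩

end Pool.Agent.L0h92.TW
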